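import Pool.Agent.Results.MP_19f369_gt.NotRightBounded

/-!
# A strongly homogeneous compact space whose semigroup is neither right nor left bounded

Stronger form of `NotRightBounded` (MP_19f369_gt, Q1).  The same split space `X` is homogeneous in
the strongest sense for finite sets (every injective map between finite subsets extends to a
homeomorphism), is first countable and maps two-to-one onto the Cantor space `(Fin 5)^ℕ`; every
continuous self-map with a continuous left inverse is a homeomorphism; and one neighbourhood `U` of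
the identity shows that `S(X)` is neither right nor left bounded: for every finite set `F` of
continuous self-maps there is a homeomorphism which lies neither in `U F` nor in `F U`.
-/

set_option autoImplicit false

open Set Topology

namespace Pool.Agent.Results.MP_19f369_gt.StronglyHomogeneous

open Pool.Agent.Helper936.Split
open NotRightBounded (SelfMap RightBounded CoveringDimZero coveringDimZero)

/-- `X` is `n`-homogeneous for every `n`: any bijection between finite subsets of `X` extends to a
homeomorphism of `X`. -/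
def NHomogeneous (X : Type) [TopologicalSpace X] : Prop :=
  ∀ (n : ℕ) (x y : Fin n → X), Function.Injective x → Function.Injective y →
    ∃ h : X ≃ₜ X, ∀ i, h (x i) = y i

/-- For every finite set `F` of continuous self-maps there is one homeomorphism `h` which is neither
of the form `u ∘ f` nor of the form `f ∘ u` with `u ∈ U` and `f ∈ F`. -/
def BadNeighbourhood (X : Type) [TopologicalSpace X] (U : Set (SelfMap X)) : Prop :=
  U ∈ 𝓝 (⟨id, continuous_id⟩ : SelfMap X) ∧
    ∀ F : Set (SelfMap X), F.Finite → ∃ h : X ≃ₜ X, ∀ u ∈ U, ∀ f ∈ F,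
      (h : X → X) ≠ u.1 ∘ f.1 ∧ (h : X → X) ≠ f.1 ∘ u.1

theorem stronglyHomogeneous : NHomogeneous X := by
  intro n
  induction n with
  | zero => exact fun x y _ _ => ⟨Homeomorph.refl X, fun i => i.elim0⟩
  | succ n ih =>
    intro x y hx hy
    obtain ⟨h, hh⟩ := ih (fun i => x i.castSucc) (fun i => y i.castSucc)
      (fun i j hij => Fin.castSucc_injective n (hx hij))
      (fun i j hij => Fin.castSucc_injective n (hy hij))
    have hE : (range fun i : Fin n => y i.castSucc).Finite := finite_range _
    have hp : h (x (Fin.last n)) ∉ range fun i : Fin n => y i.castSucc := by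
      rintro ⟨i, hi⟩
      have h1 : h (x i.castSucc) = h (x (Fin.last n)) := by rw [hh i]; exact hi
      have h2 := hx (h.injective h1)
      exact absurd h2 (Fin.castSucc_lt_last i).ne
    have hq : y (Fin.last n) ∉ range fun i : Fin n => y i.castSucc := by
      rintro ⟨i, hi⟩
      exact absurd (hy hi) (Fin.castSucc_lt_last i).ne
    obtain ⟨k, hk, hk'⟩ := move hE hp hq
    refine ⟨h.trans k, fun i => ?_⟩
    refine Fin.lastCases ?_ (fun i => ?_) i
    · exact hk
    · show k (h (x i.castSucc)) = y i.castSucc
      rw [hh i]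
      exact hk' _ ⟨i, rfl⟩

/-- A continuous self-map with a continuous left inverse is a homeomorphism. -/
theorem rigid {u v : X → X} (hu : Continuous u) (hv : Continuous v) (hvu : ∀ p, v (u p) = p) :
    Function.Bijective u :=
  ⟨fun a b hab => by rw [← hvu a, hab, hvu b], surjective_of_leftInverse hu hv hvu⟩

theorem two_points (x : G) : (pr ⁻¹' {x} : Set X).ncard = 2 := by
  have h1 : (pr ⁻¹' {x} : Set X) = {pt x false, pt x true} := by
    ext p
    constructor
    · intro hp
      have hp' : pr p = x := hp
      have h2 := pt_pr p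
      rw [hp'] at h2
      rcases Bool.eq_false_or_eq_true (e x p) with h | h
      · right
        rw [← h2, h]
        rfl
      · left
        rw [← h2, h]
    · rintro (rfl | rfl) <;> exact pr_pt _ _
  rw [h1]
  refine ncard_pair fun h => ?_
  have h2 : e x (pt x false) = e x (pt x true) := by rw [h]
  simp only [e_pt_self] at h2
  exact absurd h2 (by decide)

theorem firstCountable : FirstCountableTopology X := by
  refine ⟨fun p => ?_⟩
  have hb : (𝓝 p).HasBasis (fun _ : ℕ => True)
      (fun n => {q : X | (∀ j < n, pr q j = pr p j) ∧ e (pr p) q = e (pr p) p}) := by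
    refine ⟨fun t => ⟨fun ht => ?_, ?_⟩⟩
    · obtain ⟨O, hOt, hO, hpO⟩ := mem_nhds_iff.1 ht
      rw [← pt_pr p] at hpO
      obtain ⟨n, hn⟩ := nhd_point hO hpO
      exact ⟨n, trivial, fun q hq => hOt (hn q hq.1 hq.2)⟩
    · rintro ⟨n, -, hn⟩
      have h1 : IsOpen {q : X | (∀ j < n, pr q j = pr p j) ∧ e (pr p) q = e (pr p) p} :=
        ((isOpen_cyl (pr p) n).preimage continuous_pr).inter
          ((isOpen_discrete {e (pr p) p}).preimage (continuous_e (pr p)))
      have h2 : p ∈ {q : X | (∀ j < n, pr q j = pr p j) ∧ e (pr p) q = e (pr p) p} :=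
        ⟨fun _ _ => rfl, rfl⟩
      exact Filter.mem_of_superset (h1.mem_nhds h2) hn
  exact hb.isCountablyGenerated

/-- The neighbourhood of the identity. -/
def UU : Set (SelfMap X) :=
  {u | e 0 (u.1 (pt 0 false)) = false ∧ e 0 (u.1 (pt 0 true)) = true}

theorem UU_mem : UU ∈ 𝓝 (⟨id, continuous_id⟩ : SelfMap X) := by
  have h1 : ∀ q : X, Continuous fun u : SelfMap X => e 0 (u.1 q) := fun q =>
    (continuous_e 0).comp ((continuous_apply q).comp continuous_subtype_val)
  have h2 : IsOpen UU :=
    ((isOpen_discrete ({false} : Set Bool)).preimage (h1 _)).inter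
      ((isOpen_discrete ({true} : Set Bool)).preimage (h1 _))
  exact h2.mem_nhds ⟨e_pt_self 0 false, e_pt_self 0 true⟩

/-- Near `pt 0 true` there are infinitely many points on the side `true` of `0`. -/
theorem fresh {O : Set X} (hO : IsOpen O) (hmem : pt 0 true ∈ O) {Q : Set X} (hQ : Q.Finite) :
    ∃ q ∈ O, e 0 q = true ∧ q ∉ Q := by
  by_contra hcon
  push Not at hcon
  obtain ⟨n, hn⟩ := nhd_point hO hmem
  choose y hy1 hy2 hy3 using exists_side true
  have hy0 : ∀ m, (0 : G) ≠ y m := fun m hh => hy2 m (by rw [← hh]; rfl)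
  have he : ∀ m, e 0 (pt (y m) false) = true := fun m => by
    have h2 : e 0 (pt (y m) false) = R 0 (y m) := e_of_ne (hy0 m)
    rw [h2, hy3]
  have hinj : Function.Injective (fun m => pt (y (n + m)) false) := by
    intro a b hab
    have h1 : y (n + a) = y (n + b) := congrArg pr hab
    rcases lt_trichotomy a b with hlt | heq | hgt
    · exact absurd (by rw [h1]; exact hy1 (n + b) (n + a) (by omega)) (hy2 (n + a))
    · exact heq
    · exact absurd (by rw [← h1]; exact hy1 (n + a) (n + b) (by omega)) (hy2 (n + b))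
  have hfin : (range (fun m => pt (y (n + m)) false)).Finite := by
    refine hQ.subset ?_
    rintro _ ⟨m, rfl⟩
    exact hcon _ (hn _ (fun j hj => hy1 (n + m) j (by omega)) (he _)) (he _)
  exact (infinite_range_of_injective hinj) hfin

/-- A finite set can be moved into the side `true` of `0`, without changing the images of the points
of a finite set `Q` which are on this side already. -/
theorem move_set' (h₁ : X ≃ₜ X) {Q : Set X} (hQ : Q.Finite) (hQt : ∀ q ∈ Q, e 0 (h₁ q) = true)
    (E : Finset X) : ∃ h : X ≃ₜ X, (∀ q ∈ Q, h q = h₁ q) ∧ ∀ a ∈ E, e 0 (h a) = true := by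
  classical
  induction E using Finset.induction_on with
  | empty => exact ⟨h₁, fun _ _ => rfl, fun a ha => absurd ha (Finset.notMem_empty a)⟩
  | insert b E hb ih =>
    obtain ⟨h, hh0, hh⟩ := ih
    by_cases hb' : e 0 (h b) = true
    · refine ⟨h, hh0, fun a ha => ?_⟩
      rcases Finset.mem_insert.1 ha with rfl | ha
      · exact hb'
      · exact hh a ha
    · have hfin : ((h '' (E : Set X)) ∪ h '' Q).Finite :=
        (E.finite_toSet.image h).union (hQ.image h)
      obtain ⟨q, -, hq1, hq2⟩ := fresh isOpen_univ (mem_univ _) hfin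
      have hbE : h b ∉ (h '' (E : Set X)) ∪ h '' Q := by
        rintro (⟨a, ha, hab⟩ | ⟨a, ha, hab⟩)
        · rw [h.injective hab] at ha
          exact hb ha
        · rw [h.injective hab] at ha
          rw [hh0 b ha] at hb'
          exact hb' (hQt b ha)
      obtain ⟨k, hk1, hk2⟩ := move hfin hbE hq2
      refine ⟨h.trans k, fun q' hq' => ?_, fun a ha => ?_⟩
      · show k (h q') = h₁ q'
        rw [hk2 (h q') (Or.inr ⟨q', hq', rfl⟩), hh0 q' hq']
      · rcases Finset.mem_insert.1 ha with rfl | ha
        · show e 0 (k (h a)) = true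
          rw [hk1, hq1]
        · show e 0 (k (h a)) = true
          rw [hk2 (h a) (Or.inl ⟨a, ha, rfl⟩)]
          exact hh a ha

theorem bad : BadNeighbourhood X UU := by
  classical
  refine ⟨UU_mem, fun F hF => ?_⟩
  let x₀ : X := pt 0 false
  let x₁ : X := pt 0 true
  let V : Bool → Set X := fun i => {p | e 0 p = i}
  have hVcl : ∀ i, IsClopen (V i) := fun i =>
    (isClopen_discrete ({i} : Set Bool)).preimage (continuous_e 0)
  -- a neighbourhood of `x₁`
  have hW : ∀ f ∈ F, ∃ W : Set X, IsOpen W ∧ x₁ ∈ W ∧
      (Function.Injective f.1 → x₁ ∈ f.1 '' (V false) → ∀ y ∈ W, y ∉ f.1 '' (V true)) := by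
    intro f hf
    by_cases hinj : Function.Injective f.1 ∧ x₁ ∈ f.1 '' (V false)
    · refine ⟨(f.1 '' (V true))ᶜ, ?_, ?_, fun _ _ y hy => hy⟩
      · exact ((hVcl true).isClosed.isCompact.image f.2).isClosed.isOpen_compl
      · rintro ⟨b, hb, hb'⟩
        obtain ⟨h1, a, ha, ha'⟩ := hinj
        have : a = b := h1 (by rw [ha', hb'])
        rw [this] at ha
        have h3 : e 0 b = false := ha
        have h4 : e 0 b = true := hb
        rw [h3] at h4
        exact absurd h4 (by decide)
    · exact ⟨univ, isOpen_univ, mem_univ _, fun h1 h2 => absurd ⟨h1, h2⟩ hinj⟩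
  choose! W hWo hWm hWp using hW
  have hWW : IsOpen (⋂ f ∈ F, W f) := hF.isOpen_biInter fun f hf => hWo f hf
  have hmem : pt 0 true ∈ ⋂ f ∈ F, W f := mem_iInter₂.2 fun f hf => hWm f hf
  obtain ⟨q₁, hq₁W, hq₁e, hq₁n⟩ := fresh hWW hmem (finite_singleton x₁)
  have hx01 : x₀ ≠ x₁ := by
    intro h1
    have h2 : e 0 x₀ = e 0 x₁ := by rw [h1]
    simp only [x₀, x₁, e_pt_self] at h2
    exact absurd h2 (by decide)
  obtain ⟨h₁, hh₁⟩ := stronglyHomogeneous 2 ![x₀, x₁] ![x₁, q₁]
    (by
      intro i j hij
      fin_cases i <;> fin_cases j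
      · rfl
      · exact absurd hij hx01
      · exact absurd hij.symm hx01
      · rfl)
    (by
      intro i j hij
      fin_cases i <;> fin_cases j
      · rfl
      · exact absurd hij.symm hq₁n
      · exact absurd hij hq₁n
      · rfl)
  have hh10 : h₁ x₀ = x₁ := hh₁ 0
  have hh11 : h₁ x₁ = q₁ := hh₁ 1
  have hQt : ∀ q ∈ ({x₀, x₁} : Set X), e 0 (h₁ q) = true := by
    rintro q (rfl | rfl)
    · rw [hh10]
      exact e_pt_self 0 true
    · rw [hh11]
      exact hq₁e
  have hE : {a : X | ∃ f ∈ F, Function.Injective f.1 ∧ f.1 a = x₀}.Finite := by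
    have : {a : X | ∃ f ∈ F, Function.Injective f.1 ∧ f.1 a = x₀} ⊆
        ⋃ f ∈ F, {a : X | Function.Injective f.1 ∧ f.1 a = x₀} := by
      rintro a ⟨f, hf, h⟩
      exact mem_biUnion hf h
    refine (hF.biUnion fun f _ => ?_).subset this
    apply Set.Subsingleton.finite
    rintro a ⟨h1, h2⟩ b ⟨_, h3⟩
    exact h1 (by rw [h2, h3])
  obtain ⟨h, hh0, hh⟩ := move_set' h₁ (toFinite ({x₀, x₁} : Set X)) hQt hE.toFinset
  refine ⟨h, fun u hu f hf => ⟨fun hgu => ?_, fun hgu => ?_⟩⟩
  · have hleft : ∀ p, h.symm (u.1 (f.1 p)) = p := by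
      intro p
      have : u.1 (f.1 p) = h p := (congrFun hgu p).symm
      rw [this, Homeomorph.symm_apply_apply]
    have hbij := rigid (u := f.1) (v := fun x => h.symm (u.1 x)) f.2
      (h.symm.continuous.comp u.2) hleft
    obtain ⟨a, ha⟩ := hbij.2 x₀
    have h1 := hh a (by
      rw [Set.Finite.mem_toFinset]
      exact ⟨f, hf, hbij.1, ha⟩)
    have h2 : h a = u.1 x₀ := by
      rw [← ha]
      exact congrFun hgu a
    have h3 : e 0 (u.1 x₀) = false := hu.1
    rw [h2, h3] at h1
    exact absurd h1 (by decide)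
  · have hsurj : Function.Surjective u.1 := by
      apply surjective_of_leftInverse (f := fun x => h.symm (f.1 x)) u.2
        (h.symm.continuous.comp f.2)
      intro p
      have : f.1 (u.1 p) = h p := (congrFun hgu p).symm
      simp only [this, Homeomorph.symm_apply_apply]
    have hginj : Function.Injective f.1 := by
      intro a b hab
      obtain ⟨a', rfl⟩ := hsurj a
      obtain ⟨b', rfl⟩ := hsurj b
      have h3 : h a' = h b' := by
        have e1 : h a' = f.1 (u.1 a') := congrFun hgu a'
        have e2 : h b' = f.1 (u.1 b') := congrFun hgu b'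
        rw [e1, e2, hab]
      rw [h.injective h3]
    have e0 : h x₀ = x₁ := by rw [hh0 x₀ (Or.inl rfl), hh10]
    have e1 : h x₁ = q₁ := by rw [hh0 x₁ (Or.inr rfl), hh11]
    have hx0 : x₁ ∈ f.1 '' (V false) := by
      refine ⟨u.1 x₀, hu.1, ?_⟩
      have e2 : h x₀ = f.1 (u.1 x₀) := congrFun hgu x₀
      rw [← e2, e0]
    have hx1 : q₁ ∈ f.1 '' (V true) := by
      refine ⟨u.1 x₁, hu.2, ?_⟩
      have e2 : h x₁ = f.1 (u.1 x₁) := congrFun hgu x₁
      rw [← e2, e1]
    exact hWp f hf hginj hx0 _ (mem_iInter₂.1 hq₁W f hf) hx1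

/-- `S(X)` is left bounded: for every neighbourhood `U` of the identity there is a finite set `F`
with `S(X) = F U`. -/
def LeftBounded (X : Type) [TopologicalSpace X] : Prop :=
  ∀ U : Set (SelfMap X), U ∈ 𝓝 (⟨id, continuous_id⟩ : SelfMap X) →
    ∃ F : Set (SelfMap X), F.Finite ∧ ∀ g : SelfMap X, ∃ f ∈ F, ∃ u ∈ U, g.1 = f.1 ∘ u.1

/-- **Main theorem.** There is a nonempty compact Hausdorff zero-dimensional first countable space
`X`, with a continuous map onto the Cantor space `(Fin 5)^ℕ` all of whose fibres have exactly two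
points, such that

* any injective map between finite subsets of `X` extends to a homeomorphism of `X`;
* every continuous self-map with a continuous left inverse is bijective (a homeomorphism);
* some neighbourhood `U` of the identity has the property that for every finite set `F` of
  continuous self-maps some homeomorphism of `X` is neither in `U F` nor in `F U`;

so the semigroup `S(X)` with the pointwise topology is neither right bounded nor left bounded. -/
theorem result : ∃ (X : Type) (_ : TopologicalSpace X),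
    (Nonempty X ∧ CompactSpace X ∧ T2Space X ∧ CoveringDimZero X ∧ FirstCountableTopology X) ∧
    (∃ π : X → (ℕ → Fin 5), Continuous π ∧ ∀ x, (π ⁻¹' {x}).ncard = 2) ∧
    NHomogeneous X ∧
    (∀ u v : X → X, Continuous u → Continuous v → (∀ p, v (u p) = p) → Function.Bijective u) ∧
    (∃ U : Set (SelfMap X), BadNeighbourhood X U) ∧ ¬ RightBounded X ∧ ¬ LeftBounded X := by
  refine ⟨Pool.Agent.Helper936.Split.X, inferInstance, ⟨⟨pt 0 false⟩, inferInstance, inferInstance,
    coveringDimZero clopen_basis, firstCountable⟩, ⟨pr, continuous_pr, two_points⟩,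
    stronglyHomogeneous, fun u v hu hv h => rigid hu hv h, ⟨UU, bad⟩, ?_, ?_⟩
  · intro H
    obtain ⟨F, hF, h⟩ := H UU UU_mem
    obtain ⟨g, hg⟩ := bad.2 F hF
    obtain ⟨u, hu, f, hf, hgf⟩ := h ⟨g, g.continuous⟩
    exact (hg u hu f hf).1 hgf
  · intro H
    obtain ⟨F, hF, h⟩ := H UU UU_mem
    obtain ⟨g, hg⟩ := bad.2 F hF
    obtain ⟨f, hf, u, hu, hgf⟩ := h ⟨g, g.continuous⟩
    exact (hg u hu f hf).2 hgf

end Pool.Agent.Results.MP_19f369_gt.StronglyHomogeneous
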